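import Pool.Agent.L7h59.AR.Stm
import Pool.Agent.Q30.FJ.Cons

/-!
# Project AR: the shift homomorphism to the restricted wreath product `A ≀ ℤ`
-/

set_option autoImplicit false

namespace Pool.Agent.L7h82.AR

open Pool.Agent.Y110.FJ
open Pool.Agent.Y462.SS (Closed)

/-- the group of finitely supported functions -/
def Fs (Ω A : Type) [Group A] : Subgroup (Ω → A) where
  carrier := {a | {n | a n ≠ 1}.Finite}
  one_mem' := by simp
  mul_mem' := by
    intro a b ha hb
    refine (Set.Finite.union ha hb).subset fun n hn => ?_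
    by_contra h
    rw [Set.mem_union, not_or] at h
    have h1 : a n = 1 := not_not.1 h.1
    have h2 : b n = 1 := not_not.1 h.2
    exact hn (by rw [Pi.mul_apply, h1, h2, one_mul])
  inv_mem' := by
    intro a ha
    refine Set.Finite.subset ha fun n hn h => hn ?_
    rw [Pi.inv_apply, h, inv_one]

/-- extension by one -/
noncomputable def ext1 {Ω A : Type} [Group A] (S : Finset Ω) : (S → A) →* Fs Ω A where
  toFun a := ⟨fun n => open Classical in if h : n ∈ S then a ⟨n, h⟩ else 1, by
    refine S.finite_toSet.subset fun n hn => ?_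
    by_contra h
    have h' : n ∉ S := h
    apply hn
    simp [h']⟩
  map_one' := by
    apply Subtype.ext; funext n
    simp
  map_mul' a b := by
    apply Subtype.ext; funext n
    by_cases h : n ∈ S <;> simp [h]

theorem ext1_val {Ω A : Type} [Group A] (S : Finset Ω) (a : S → A) (n : S) :
    (ext1 S a : Ω → A) n = a n := by
  simp [ext1]

theorem ext1_out {Ω A : Type} [Group A] (S : Finset Ω) (a : S → A) {n : Ω} (h : n ∉ S) :
    (ext1 S a : Ω → A) n = 1 := by
  simp [ext1, h]

/-- restriction to a larger set -/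
noncomputable def res {Ω A : Type} [Group A] (S T : Finset Ω) : (S → A) →* (T → A) where
  toFun a := fun n => (ext1 S a : Ω → A) n
  map_one' := by funext n; simp
  map_mul' a b := by funext n; simp

theorem ext1_res {Ω A : Type} [Group A] {S T : Finset Ω} (h : S ⊆ T) (a : S → A) :
    ext1 T (res S T a) = ext1 S a := by
  apply Subtype.ext; funext n
  by_cases hn : n ∈ T
  · exact ext1_val T _ ⟨n, hn⟩
  · rw [ext1_out T _ hn, ext1_out S _ fun h' => hn (h h')]

theorem ext1_inj {Ω A : Type} [Group A] (S : Finset Ω) : Function.Injective (ext1 (A := A) S) := by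
  intro a b hab
  funext n
  have := congrFun (congrArg Subtype.val hab) n
  rwa [ext1_val, ext1_val] at this

/-- the group of finitely supported functions is in the class -/
theorem C_Fs {C : ∀ (G : Type) [Group G], Prop} (hC : Closed C) (Ω A : Type) [Group A] (hA : C A) :
    C (Fs Ω A) := by
  classical
  refine hC.colim (Finset Ω) (fun i j => ⟨i ∪ j, Finset.subset_union_left,
      Finset.subset_union_right⟩)
    (fun S => (S → A)) (fun S T _ => res S T) (Fs Ω A) (fun S => ext1 S) ?_ ?_ ?_ ?_ ?_ ?_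
  · intro S _ a
    exact ext1_inj S (ext1_res (Finset.Subset.refl S) a)
  · intro S T U h h' a
    exact ext1_inj U (by rw [ext1_res h', ext1_res h, ext1_res (h.trans h')])
  · intro S T h a
    exact ext1_res h a
  · intro y
    have hy : {n | (y : Ω → A) n ≠ 1}.Finite := y.2
    refine ⟨hy.toFinset, fun n => (y : Ω → A) n, ?_⟩
    apply Subtype.ext; funext n
    by_cases hn : n ∈ hy.toFinset
    · exact ext1_val _ _ ⟨n, hn⟩
    · rw [ext1_out _ _ hn]
      by_contra h
      exact hn (hy.mem_toFinset.2 fun h' => h h'.symm)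
  · intro S a ha
    refine ⟨S, le_rfl, ?_⟩
    have : a = 1 := ext1_inj S (by rw [ha, map_one])
    rw [this, map_one]
  · intro S
    exact Pool.Agent.Y812.SS.C_pow hC _ _ hA

/-- the action of permutations on finitely supported functions -/
def act (Ω A : Type) [Group A] : Equiv.Perm Ω →* MulAut (Fs Ω A) where
  toFun π :=
    { toFun := fun a => ⟨fun n => (a : Ω → A) (π⁻¹ n), by
        have ha : {n | (a : Ω → A) n ≠ 1}.Finite := a.2
        exact ha.preimage (π⁻¹).injective.injOn⟩
      invFun := fun a => ⟨fun n => (a : Ω → A) (π n), by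
        have ha : {n | (a : Ω → A) n ≠ 1}.Finite := a.2
        exact ha.preimage π.injective.injOn⟩
      left_inv := fun a => by
        apply Subtype.ext; funext n
        simp
      right_inv := fun a => by
        apply Subtype.ext; funext n
        simp
      map_mul' := fun a b => rfl }
  map_one' := by
    ext a n
    rfl
  map_mul' π π' := by
    ext a n
    simp [mul_inv_rev, Equiv.Perm.mul_apply]

theorem act_apply {Ω A : Type} [Group A] (π : Equiv.Perm Ω) (a : Fs Ω A) (n : Ω) :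
    (act Ω A π a : Ω → A) n = (a : Ω → A) (π⁻¹ n) := rfl

/-- the shift action of `ℤ` on itself -/
def sh : Multiplicative ℤ →* Equiv.Perm ℤ where
  toFun m := Equiv.addRight (-m.toAdd)
  map_one' := by ext n; simp
  map_mul' a b := by
    ext n
    simp

theorem sh_inv (m : Multiplicative ℤ) (n : ℤ) : (sh m)⁻¹ n = n + m.toAdd := by
  rw [Equiv.Perm.inv_eq_iff_eq]
  simp [sh]

theorem s_shift : Pool.Agent.L7h59.AR.S_SHIFT := by
  intro C hC A H _ _ hA K _ x hx hgen ρ hfin
  -- the exponent homomorphism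
  have hinj : Function.Injective (zpowersHom (H ⧸ K) (x : H ⧸ K)) := by
    rw [injective_iff_map_eq_one]
    intro m hm
    rw [zpowersHom_apply, ← QuotientGroup.mk_zpow, QuotientGroup.eq_one_iff] at hm
    by_contra hne
    have h0 : m.toAdd ≠ 0 := fun h => hne (by rw [← ofAdd_toAdd m, h]; rfl)
    rcases lt_or_gt_of_ne h0 with h | h
    · refine hx (-m.toAdd).toNat (by omega) ?_
      have h2 := K.inv_mem hm
      rw [← zpow_neg] at h2
      rwa [← zpow_natCast, Int.toNat_of_nonneg (by omega)]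
    · refine hx m.toAdd.toNat (by omega) ?_
      rwa [← zpow_natCast, Int.toNat_of_nonneg (by omega)]
  have hsurj : Function.Surjective (zpowersHom (H ⧸ K) (x : H ⧸ K)) := by
    intro q
    obtain ⟨h, rfl⟩ := QuotientGroup.mk_surjective q
    have hh : h ∈ K ⊔ Subgroup.zpowers x := hgen ▸ Subgroup.mem_top h
    rw [sup_comm, Subgroup.mem_sup_of_normal_right] at hh
    obtain ⟨y, ⟨m, rfl⟩, k, hk, rfl⟩ := hh
    refine ⟨Multiplicative.ofAdd m, ?_⟩
    rw [zpowersHom_apply, toAdd_ofAdd, ← QuotientGroup.mk_zpow]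
    exact (QuotientGroup.mk_mul_of_mem _ hk).symm
  obtain ⟨eq, heq⟩ : ∃ eq : Multiplicative ℤ ≃* H ⧸ K, ∀ m, eq m = (x : H ⧸ K) ^ m.toAdd :=
    ⟨MulEquiv.ofBijective _ ⟨hinj, hsurj⟩, fun m => rfl⟩
  obtain ⟨e, he⟩ : ∃ e : H →* Multiplicative ℤ, ∀ h, eq (e h) = (h : H ⧸ K) :=
    ⟨eq.symm.toMonoidHom.comp (QuotientGroup.mk' K), fun h => eq.apply_symm_apply _⟩
  have heK : ∀ h : H, h * (x ^ (e h).toAdd)⁻¹ ∈ K := by
    intro h
    rw [← QuotientGroup.eq_one_iff, QuotientGroup.mk_mul, QuotientGroup.mk_inv,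
      QuotientGroup.mk_zpow, ← heq, he, mul_inv_cancel]
  have heK1 : ∀ k : K, e k = 1 := by
    intro k
    apply eq.injective
    rw [he, map_one, (QuotientGroup.eq_one_iff _).2 k.2]
  -- the sections
  have hcj : ∀ (n : ℤ) (h : H), x ^ n * (h * (x ^ (e h).toAdd)⁻¹) * (x ^ n)⁻¹ ∈ K := fun n h =>
    Subgroup.Normal.conj_mem inferInstance _ (heK h) _
  obtain ⟨s, hs⟩ : ∃ s : H → Fs ℤ A, ∀ h n, (s h : ℤ → A) n =
      ρ ⟨x ^ n * (h * (x ^ (e h).toAdd)⁻¹) * (x ^ n)⁻¹, hcj n h⟩ :=
    ⟨fun h => ⟨fun n => ρ ⟨x ^ n * (h * (x ^ (e h).toAdd)⁻¹) * (x ^ n)⁻¹, hcj n h⟩,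
      hfin ⟨_, heK h⟩⟩, fun h n => rfl⟩
  refine ⟨Fs ℤ A ⋊[(act ℤ A).comp sh] Multiplicative ℤ, inferInstance,
    MonoidHom.mk' (fun h => ⟨s h, e h⟩) ?_, ?_, ?_⟩
  · intro h h'
    apply SemidirectProduct.ext
    · apply Subtype.ext; funext n
      rw [SemidirectProduct.mul_left]
      show (s (h * h') : ℤ → A) n = (s h : ℤ → A) n * (act ℤ A (sh (e h)) (s h') : ℤ → A) n
      rw [act_apply, sh_inv, hs, hs, hs, ← map_mul]
      congr 1
      apply Subtype.ext
      show _ = x ^ n * (h * (x ^ (e h).toAdd)⁻¹) * (x ^ n)⁻¹ *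
        (x ^ (n + (e h).toAdd) * (h' * (x ^ (e h').toAdd)⁻¹) * (x ^ (n + (e h).toAdd))⁻¹)
      show x ^ n * (h * h' * (x ^ (e (h * h')).toAdd)⁻¹) * (x ^ n)⁻¹ = _
      rw [map_mul, toAdd_mul, zpow_add, zpow_add]
      group
    · exact map_mul e h h'
  · refine Q30.FJ.nom C hC ℤ (Fs ℤ A) (Multiplicative ℤ) (act ℤ A) sh ?_
      (C_Fs hC.base _ _ hA) hC.base.int
    intro a
    refine ⟨{n | (a : ℤ → A) n ≠ 1}, a.2, fun π hπ => ?_⟩
    apply Subtype.ext; funext n
    rw [act_apply]
    by_cases hn : (a : ℤ → A) n = 1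
    · rw [hn]
      by_contra h
      have h1 : π (π⁻¹ n) = π⁻¹ n := hπ _ h
      have h2 : π (π⁻¹ n) = n := π.apply_symm_apply n
      rw [← h1, h2] at h
      exact h hn
    · have h1 : π n = n := hπ n hn
      have h2 : π⁻¹ n = n := by
        rw [Equiv.Perm.inv_eq_iff_eq]
        exact h1.symm
      rw [h2]
  · intro k hk
    have h1 : s (k : H) = 1 := congrArg SemidirectProduct.left hk
    have h2 : (s (k : H) : ℤ → A) 0 = 1 := by rw [h1]; rfl
    rw [hs] at h2
    rw [← h2]
    congr 1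
    apply Subtype.ext
    show (k : H) = x ^ (0 : ℤ) * ((k : H) * (x ^ (e (k : H)).toAdd)⁻¹) * (x ^ (0 : ℤ))⁻¹
    rw [heK1]
    simp

end Pool.Agent.L7h82.AR
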